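import Pool.Agent.Helper50.CQ.Main

/-!
Equidistribution of Costas arrays (MP_c5396e_co): arithmetic progressions.
-/

set_option autoImplicit false

open Finset
open scoped ComplexConjugate

namespace Pool.Agent.Helper50.CQ

open Pool.Agent.Helper87.CA

noncomputable section

lemma e_int (m : ℤ) : e (m : ℝ) = 1 := by
  unfold e
  rw [Complex.exp_eq_one_iff]
  exact ⟨m, by push_cast; ring⟩

lemma e_nat_mul (h : ℕ) (x : ℝ) : e ((h : ℝ) * x) = e x ^ h := by
  unfold e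
  rw [← Complex.exp_nat_mul]
  congr 1
  push_cast
  ring

lemma e_eq_one {x : ℝ} (hx : e x = 1) : ∃ m : ℤ, x = m := by
  unfold e at hx
  rw [Complex.exp_eq_one_iff] at hx
  obtain ⟨m, hm⟩ := hx
  refine ⟨m, ?_⟩
  have h1 : (2 * Real.pi * Complex.I : ℂ) ≠ 0 := Complex.two_pi_I_ne_zero
  have h2 : (x : ℂ) = m := by
    apply mul_left_cancel₀ h1
    rw [hm]
    ring
  exact_mod_cast h2

/-- Orthogonality. -/
lemma orth (q : ℕ) (hq : 0 < q) (m : ℤ) :
    ∑ h ∈ range q, e ((h : ℝ) * ((m : ℝ) / q)) = if (q : ℤ) ∣ m then (q : ℂ) else 0 := by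
  have hqR : (q : ℝ) ≠ 0 := by exact_mod_cast hq.ne'
  have h1 : ∀ h ∈ range q, e ((h : ℝ) * ((m : ℝ) / q)) = e ((m : ℝ) / q) ^ h :=
    fun h _ => e_nat_mul h _
  rw [Finset.sum_congr rfl h1]
  split_ifs with hd
  · obtain ⟨k, hk⟩ := hd
    have h2 : ((m : ℝ) / q) = (k : ℝ) := by
      rw [hk]
      push_cast
      field_simp
    rw [h2, e_int]
    simp
  · have hne : e ((m : ℝ) / q) ≠ 1 := by
      intro h2
      obtain ⟨k, hk⟩ := e_eq_one h2
      apply hd
      refine ⟨k, ?_⟩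
      have h3 : (m : ℝ) = (q : ℝ) * k := by
        rw [← hk]
        field_simp
      exact_mod_cast h3
    have h3 : e ((m : ℝ) / q) ^ q = 1 := by
      rw [← e_nat_mul]
      have : (q : ℝ) * ((m : ℝ) / q) = (m : ℝ) := by field_simp
      rw [this, e_int]
    have h4 := mul_neg_geom_sum (e ((m : ℝ) / q)) q
    rw [h3, sub_self] at h4
    rcases mul_eq_zero.1 h4 with h5 | h5
    · exact absurd (sub_eq_zero.1 h5).symm hne
    · exact h5

/-- The indicator function of a residue class. -/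
lemma ind (q : ℕ) (hq : 0 < q) (x i : ℕ) :
    (if i ≡ x [MOD q] then (1 : ℂ) else 0)
      = ∑ h ∈ range q, ((1 / q : ℂ) * e (-((h : ℝ) / q * x))) * e ((h : ℝ) / q * i) := by
  have hqC : (q : ℂ) ≠ 0 := by exact_mod_cast hq.ne'
  have h1 := orth q hq ((i : ℤ) - x)
  have h2 : ((q : ℤ) ∣ ((i : ℤ) - x)) ↔ i ≡ x [MOD q] := by
    rw [Nat.ModEq.comm, Nat.modEq_iff_dvd]
  have h3 : ∀ h ∈ range q, ((1 / q : ℂ) * e (-((h : ℝ) / q * x))) * e ((h : ℝ) / q * i)
      = (1 / q : ℂ) * e ((h : ℝ) * ((((i : ℤ) - x : ℤ) : ℝ) / q)) := by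
    intro h _
    rw [mul_assoc, ← e_add]
    congr 2
    push_cast
    ring
  rw [Finset.sum_congr rfl h3, ← Finset.mul_sum, h1]
  by_cases hc : i ≡ x [MOD q]
  · rw [if_pos hc, if_pos (h2.2 hc)]
    field_simp
  · rw [if_neg hc, if_neg (fun h => hc (h2.1 h)), mul_zero]

lemma Prog_eq (n a b q x : ℕ) :
    Prog n a b q x = (Iv n a b).filter (fun i : Fin n => (i : ℕ) ≡ x [MOD q]) := by
  ext i
  simp only [Prog, Iv, mem_filter, mem_univ, true_and]
  tauto

/-- Equidistribution in boxes of arithmetic progressions, with characters. -/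
theorem twist {n : ℕ} (f : Equiv.Perm (Fin n)) (hf : IsCostas f) (a b c d q r x y : ℕ)
    (hq : 0 < q) (hr : 0 < r) (α β : ℝ) :
    ‖∑ i ∈ (Prog n a b q x).filter (fun i => f i ∈ Prog n c d r y),
        e (α * ((i : ℕ) : ℝ) + β * ((f i : ℕ) : ℝ))
      - (1 / n : ℂ) * ((∑ i ∈ Prog n a b q x, e (α * ((i : ℕ) : ℝ))) *
        (∑ j ∈ Prog n c d r y, e (β * ((j : ℕ) : ℝ))))‖
      ≤ 5 * (n : ℝ) ^ (5 / 6 : ℝ) := by
  have hqR : (0 : ℝ) < q := by exact_mod_cast hq
  have hrR : (0 : ℝ) < r := by exact_mod_cast hr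
  set A : ℕ → ℂ := fun h => (1 / q : ℂ) * e (-((h : ℝ) / q * x)) with hA
  set B : ℕ → ℂ := fun k => (1 / r : ℂ) * e (-((k : ℝ) / r * y)) with hB
  have hAn : ∀ h, ‖A h‖ = 1 / q := by
    intro h
    rw [hA]
    simp only [norm_mul, norm_e, mul_one, norm_div, norm_one, Complex.norm_natCast]
  have hBn : ∀ k, ‖B k‖ = 1 / r := by
    intro k
    rw [hB]
    simp only [norm_mul, norm_e, mul_one, norm_div, norm_one, Complex.norm_natCast]
  have h1 : ∑ i ∈ (Prog n a b q x).filter (fun i => f i ∈ Prog n c d r y),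
        e (α * ((i : ℕ) : ℝ) + β * ((f i : ℕ) : ℝ))
      = ∑ h ∈ range q, ∑ k ∈ range r, (A h * B k) *
        SR (f : Fin n → Fin n) a b c d (α + (h : ℝ) / q) (β + (k : ℝ) / r) := by
    have h0 : (Prog n a b q x).filter (fun i => f i ∈ Prog n c d r y)
        = ((Iv n a b).filter (fun i => f i ∈ Iv n c d)).filter
          (fun i : Fin n => (i : ℕ) ≡ x [MOD q] ∧ (f i : ℕ) ≡ y [MOD r]) := by
      ext i
      simp only [Prog, Iv, mem_filter, mem_univ, true_and]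
      tauto
    rw [h0, Finset.sum_filter]
    have h2 : ∀ i ∈ (Iv n a b).filter (fun i => f i ∈ Iv n c d),
        (if (i : ℕ) ≡ x [MOD q] ∧ (f i : ℕ) ≡ y [MOD r] then
          e (α * ((i : ℕ) : ℝ) + β * ((f i : ℕ) : ℝ)) else 0)
        = ∑ h ∈ range q, ∑ k ∈ range r, (A h * B k) *
          ch (α + (h : ℝ) / q) (β + (k : ℝ) / r) (pt f i) := by
      intro i _
      have h3 : (if (i : ℕ) ≡ x [MOD q] ∧ (f i : ℕ) ≡ y [MOD r] then
          e (α * ((i : ℕ) : ℝ) + β * ((f i : ℕ) : ℝ)) else 0)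
          = ((if (i : ℕ) ≡ x [MOD q] then (1 : ℂ) else 0) *
            (if (f i : ℕ) ≡ y [MOD r] then (1 : ℂ) else 0)) *
            e (α * ((i : ℕ) : ℝ) + β * ((f i : ℕ) : ℝ)) := by
        by_cases h4 : (i : ℕ) ≡ x [MOD q] <;> by_cases h5 : (f i : ℕ) ≡ y [MOD r] <;> simp [h4, h5]
      rw [h3, ind q hq, ind r hr, Finset.sum_mul_sum, Finset.sum_mul]
      refine Finset.sum_congr rfl fun h _ => ?_
      rw [Finset.sum_mul]
      refine Finset.sum_congr rfl fun k _ => ?_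
      have h6 : ch (α + (h : ℝ) / q) (β + (k : ℝ) / r) (pt f i)
          = e ((h : ℝ) / q * ((i : ℕ) : ℝ)) * e ((k : ℝ) / r * ((f i : ℕ) : ℝ)) *
            e (α * ((i : ℕ) : ℝ) + β * ((f i : ℕ) : ℝ)) := by
        rw [← e_add, ← e_add]
        unfold ch pt
        congr 1
        push_cast
        ring
      rw [h6]
      simp only [hA, hB]
      ring
    rw [Finset.sum_congr rfl h2, Finset.sum_comm]
    refine Finset.sum_congr rfl fun h _ => ?_
    rw [Finset.sum_comm]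
    refine Finset.sum_congr rfl fun k _ => ?_
    rw [← Finset.mul_sum]
    rfl
  have hE : ∀ (a b q x : ℕ) (γ : ℝ) (hq : 0 < q),
      ∑ i ∈ Prog n a b q x, e (γ * ((i : ℕ) : ℝ))
      = ∑ h ∈ range q, ((1 / q : ℂ) * e (-((h : ℝ) / q * x))) * E1 n a b (γ + (h : ℝ) / q) := by
    intro a b q x γ hq
    rw [Prog_eq, Finset.sum_filter]
    have h2 : ∀ i ∈ Iv n a b, (if (i : ℕ) ≡ x [MOD q] then e (γ * ((i : ℕ) : ℝ)) else 0)
        = ∑ h ∈ range q, ((1 / q : ℂ) * e (-((h : ℝ) / q * x))) *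
          e ((γ + (h : ℝ) / q) * ((i : ℕ) : ℝ)) := by
      intro i _
      have h3 : (if (i : ℕ) ≡ x [MOD q] then e (γ * ((i : ℕ) : ℝ)) else 0)
          = (if (i : ℕ) ≡ x [MOD q] then (1 : ℂ) else 0) * e (γ * ((i : ℕ) : ℝ)) := by
        by_cases h4 : (i : ℕ) ≡ x [MOD q] <;> simp [h4]
      rw [h3, ind q hq, Finset.sum_mul]
      refine Finset.sum_congr rfl fun h _ => ?_
      rw [mul_assoc, ← e_add]
      congr 2
      ring
    rw [Finset.sum_congr rfl h2, Finset.sum_comm]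
    refine Finset.sum_congr rfl fun h _ => ?_
    rw [← Finset.mul_sum]
    rfl
  rw [h1, hE a b q x α hq, hE c d r y β hr]
  have h7 : ∑ h ∈ range q, ∑ k ∈ range r, (A h * B k) *
        SR (f : Fin n → Fin n) a b c d (α + (h : ℝ) / q) (β + (k : ℝ) / r)
      - (1 / n : ℂ) * ((∑ h ∈ range q, A h * E1 n a b (α + (h : ℝ) / q)) *
        (∑ k ∈ range r, B k * E1 n c d (β + (k : ℝ) / r)))
      = ∑ h ∈ range q, ∑ k ∈ range r, (A h * B k) *
      (SR (f : Fin n → Fin n) a b c d (α + (h : ℝ) / q) (β + (k : ℝ) / r)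
        - (1 / n : ℂ) * (E1 n a b (α + (h : ℝ) / q) * E1 n c d (β + (k : ℝ) / r))) := by
    rw [Finset.sum_mul_sum, Finset.mul_sum, ← Finset.sum_sub_distrib]
    refine Finset.sum_congr rfl fun h _ => ?_
    rw [Finset.mul_sum, ← Finset.sum_sub_distrib]
    refine Finset.sum_congr rfl fun k _ => ?_
    ring
  rw [h7]
  refine (norm_sum_le _ _).trans ?_
  have h9 : ∀ h ∈ range q, ‖∑ k ∈ range r, (A h * B k) *
      (SR (f : Fin n → Fin n) a b c d (α + (h : ℝ) / q) (β + (k : ℝ) / r)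
        - (1 / n : ℂ) * (E1 n a b (α + (h : ℝ) / q) * E1 n c d (β + (k : ℝ) / r)))‖
      ≤ 1 / q * (5 * (n : ℝ) ^ (5 / 6 : ℝ)) := by
    intro h _
    refine (norm_sum_le _ _).trans ?_
    have h10 : ∀ k ∈ range r, ‖(A h * B k) *
        (SR (f : Fin n → Fin n) a b c d (α + (h : ℝ) / q) (β + (k : ℝ) / r)
          - (1 / n : ℂ) * (E1 n a b (α + (h : ℝ) / q) * E1 n c d (β + (k : ℝ) / r)))‖
        ≤ 1 / r * (1 / q * (5 * (n : ℝ) ^ (5 / 6 : ℝ))) := by
      intro k _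
      rw [norm_mul, norm_mul, hAn, hBn]
      have h11 := main f hf a b c d (α + (h : ℝ) / q) (β + (k : ℝ) / r)
      calc _ ≤ 1 / (q : ℝ) * (1 / r) * (5 * (n : ℝ) ^ (5 / 6 : ℝ)) :=
            mul_le_mul_of_nonneg_left h11 (by positivity)
        _ = _ := by ring
    refine (Finset.sum_le_sum h10).trans ?_
    rw [Finset.sum_const, card_range, nsmul_eq_mul]
    apply le_of_eq
    field_simp
  refine (Finset.sum_le_sum h9).trans ?_
  rw [Finset.sum_const, card_range, nsmul_eq_mul]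
  apply le_of_eq
  field_simp

end

end Pool.Agent.Helper50.CQ
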