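import Pool.Agent.Helper87.CA.Defs

/-!
Equidistribution of Costas arrays (MP_c5396e_co): the definitions used in the statements.
`IsCostas` is defined in `Pool/Agent/Helper87/CA/Defs.lean`.
-/

set_option autoImplicit false

open Finset

namespace Pool.Agent.Helper50.CQ

noncomputable section

/-- `e t = exp (2 π i t)`. -/
def e (t : ℝ) : ℂ := Complex.exp (2 * Real.pi * Complex.I * t)

/-- The arithmetic progression `{i : a ≤ i < b, i ≡ x mod q}` in `{0, …, n-1}`. -/
def Prog (n a b q x : ℕ) : Finset (Fin n) :=
  univ.filter (fun i : Fin n => a ≤ (i : ℕ) ∧ (i : ℕ) < b ∧ (i : ℕ) ≡ x [MOD q])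

variable {n : ℕ} {K : Type} [DecidableEq K]

/-- A set `X` of tuples with entries in `{0, …, n-1}` is convex in every coordinate direction:
if `r ≤ s ≤ t` and `X` contains the tuples which arise from `x` when the entry with index `m` is
replaced by `r` and by `t`, then it contains the one with `s`. -/
def CoordConvex (X : Finset (K → Fin n)) : Prop :=
  ∀ (m : K) (x : K → Fin n) (r s t : Fin n), r ≤ s → s ≤ t →
    Function.update x m r ∈ X → Function.update x m t ∈ X → Function.update x m s ∈ X

/-- The tuples obtained from the elements of `X` by deleting the entry with index `m`. -/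
def shadow [Fintype K] (X : Finset (K → Fin n)) (m : K) : Finset ({a : K // a ≠ m} → Fin n) :=
  X.image (fun x a => x a)

end

end Pool.Agent.Helper50.CQ
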