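import Pool.Agent.Helper87.CA.Goals
import Pool.Agent.Helper90.CA.WIN
import Pool.Agent.Helper3.CA.ET
import Pool.Agent.Helper42.CA.FIN
import Pool.Agent.Helper50.CQ.Defs

/-!
Equidistribution of Costas arrays (MP_c5396e_co): exponential sums over windows.
-/

set_option autoImplicit false

open Finset
open scoped ComplexConjugate

namespace Pool.Agent.Helper50.CQ

open Pool.Agent.Helper87.CA

noncomputable section

lemma e_add (x y : ℝ) : e (x + y) = e x * e y := by
  unfold e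
  rw [← Complex.exp_add]
  congr 1
  push_cast
  ring

lemma e_zero : e 0 = 1 := by simp [e]

lemma e_eq (x : ℝ) : e x = Complex.exp (((2 * Real.pi * x : ℝ) : ℂ) * Complex.I) := by
  unfold e
  congr 1
  push_cast
  ring

lemma norm_e (x : ℝ) : ‖e x‖ = 1 := by
  rw [e_eq]
  exact Complex.norm_exp_ofReal_mul_I _

lemma conj_e (x : ℝ) : conj (e x) = e (-x) := by
  rw [e_eq, e_eq, ← Complex.exp_conj]
  congr 1
  rw [map_mul, Complex.conj_ofReal, Complex.conj_I]
  push_cast
  ring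

/-- The geometric sum over one side of a window. -/
def D1 (u : ℕ) (α : ℝ) : ℂ := ∑ w ∈ range u, e (α * w)

lemma norm_D1_le (u : ℕ) (α : ℝ) : ‖D1 u α‖ ≤ u := by
  unfold D1
  refine (norm_sum_le _ _).trans ?_
  simp [norm_e]

/-- One dimensional window sum. -/
lemma win1 (n u : ℕ) (α : ℝ) (x : ℤ) (hx : 0 ≤ x) (hx' : x < n) :
    ∑ s ∈ (Finset.Ioo (-(u : ℤ)) (n : ℤ)).filter (fun s => s ≤ x ∧ x < s + u),
      e (α * ((x - s : ℤ) : ℝ)) = D1 u α := by
  unfold D1
  symm
  refine Finset.sum_bij (fun (w : ℕ) _ => x - (w : ℤ)) ?_ ?_ ?_ ?_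
  · intro w hw
    simp only [mem_range] at hw
    simp only [mem_filter, mem_Ioo]
    omega
  · intro w _ w' _ h
    omega
  · intro s hs
    simp only [mem_filter, mem_Ioo] at hs
    refine ⟨(x - s).toNat, ?_, ?_⟩
    · simp only [mem_range]
      omega
    · omega
  · intro w _
    congr 2
    simp

/-- The Fejer kernel. -/
lemma fej1 (u : ℕ) (α : ℝ) :
    ∑ δ ∈ Finset.Ioo (-(u : ℤ)) (u : ℤ), ((max 0 ((u : ℝ) - |(δ : ℝ)|) : ℝ) : ℂ) * e (α * (δ : ℝ))
      = D1 u α * conj (D1 u α) := by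
  unfold D1
  rw [map_sum, Finset.sum_mul_sum, ← Finset.sum_product']
  rw [← Finset.sum_fiberwise_of_maps_to (s := range u ×ˢ range u)
    (t := Finset.Ioo (-(u : ℤ)) (u : ℤ)) (g := fun p : ℕ × ℕ => (p.1 : ℤ) - (p.2 : ℤ))]
  · refine Finset.sum_congr rfl fun δ hδ => ?_
    have h1 : ∀ p ∈ (range u ×ˢ range u).filter (fun p : ℕ × ℕ => (p.1 : ℤ) - (p.2 : ℤ) = δ),
        e (α * (p.1 : ℝ)) * conj (e (α * (p.2 : ℝ))) = e (α * (δ : ℝ)) := by
      intro p hp
      rw [(by rw [← (mem_filter.1 hp).2]; push_cast; rfl : (δ : ℝ) = (p.1 : ℝ) - (p.2 : ℝ)),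
        conj_e, ← e_add]
      congr 1
      ring
    rw [Finset.sum_congr rfl h1, Finset.sum_const, nsmul_eq_mul]
    congr 1
    have hc : (((range u ×ˢ range u).filter
        (fun p : ℕ × ℕ => (p.1 : ℤ) - (p.2 : ℤ) = δ)).card : ℤ) = (u : ℤ) - |δ| := by
      have hc2 : ((range u ×ˢ range u).filter (fun p : ℕ × ℕ => (p.1 : ℤ) - (p.2 : ℤ) = δ)).card
          = (Finset.Ico (max 0 (-δ)) (min (u : ℤ) (u - δ))).card := by
        refine Finset.card_bij (fun p _ => (p.2 : ℤ)) ?_ ?_ ?_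
        · intro p hp
          simp only [mem_filter, mem_product, mem_range] at hp
          simp only [mem_Ico]
          omega
        · intro p hp q hq h
          simp only [mem_filter, mem_product, mem_range] at hp hq
          ext <;> omega
        · intro b hb
          simp only [mem_Ico] at hb
          refine ⟨((b + δ).toNat, b.toNat), ?_, ?_⟩
          · simp only [mem_filter, mem_product, mem_range]
            omega
          · omega
      rw [hc2, Int.card_Ico]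
      simp only [mem_Ioo] at hδ
      rcases abs_cases δ with h | h <;> omega
    have h2 : |δ| ≤ (u : ℤ) := by
      simp only [mem_Ioo] at hδ
      exact abs_le.mpr ⟨by omega, by omega⟩
    have h3 : (0 : ℝ) ≤ (u : ℝ) - |(δ : ℝ)| := by
      have : ((|δ| : ℤ) : ℝ) ≤ ((u : ℤ) : ℝ) := by exact_mod_cast h2
      push_cast at this
      linarith
    rw [max_eq_right h3]
    have h4 : ((((range u ×ˢ range u).filter
        (fun p : ℕ × ℕ => (p.1 : ℤ) - (p.2 : ℤ) = δ)).card : ℕ) : ℝ) = (u : ℝ) - |(δ : ℝ)| := by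
      have := congrArg (fun z : ℤ => (z : ℝ)) hc
      simpa using this
    rw [← h4]
    push_cast
    rfl
  · intro p hp
    simp only [mem_product, mem_range] at hp
    simp only [mem_Ioo]
    omega

/-- The character of `ℤ × ℤ` with frequencies `α, β`. -/
def ch (α β : ℝ) (p : ℤ × ℤ) : ℂ := e (α * (p.1 : ℝ) + β * (p.2 : ℝ))

lemma ch_eq (α β : ℝ) (p : ℤ × ℤ) : ch α β p = e (α * (p.1 : ℝ)) * e (β * (p.2 : ℝ)) := e_add _ _

lemma ch_zero (α β : ℝ) : ch α β 0 = 1 := by simp [ch, e_zero]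

lemma norm_ch (α β : ℝ) (p : ℤ × ℤ) : ‖ch α β p‖ = 1 := norm_e _

lemma ch_mul_conj (α β : ℝ) (p q : ℤ × ℤ) :
    ch α β p * conj (ch α β q) = ch α β (p - q) := by
  unfold ch
  rw [conj_e, ← e_add]
  congr 1
  simp only [Prod.fst_sub, Prod.snd_sub]
  push_cast
  ring

/-- The Fejer kernel in two dimensions. -/
lemma fej2 (u : ℕ) (α β : ℝ) :
    ∑ δ ∈ Box u, ((wt2 u δ : ℝ) : ℂ) * ch α β δ
      = (D1 u α * D1 u β) * conj (D1 u α * D1 u β) := by
  unfold Box wt2
  rw [Finset.sum_product]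
  have h : ∀ x ∈ Finset.Ioo (-(u : ℤ)) (u : ℤ), ∑ y ∈ Finset.Ioo (-(u : ℤ)) (u : ℤ),
      ((max 0 ((u : ℝ) - |((x, y).1 : ℝ)|) * max 0 ((u : ℝ) - |((x, y).2 : ℝ)|) : ℝ) : ℂ)
        * ch α β (x, y)
      = (((max 0 ((u : ℝ) - |(x : ℝ)|) : ℝ) : ℂ) * e (α * (x : ℝ))) * (D1 u β * conj (D1 u β)) := by
    intro x _
    rw [← fej1 u β, Finset.mul_sum]
    refine Finset.sum_congr rfl fun y _ => ?_
    rw [ch_eq]
    push_cast
    ring
  rw [Finset.sum_congr rfl h, ← Finset.sum_mul, fej1, map_mul]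
  ring

/-- The exponential sum over the dots in a window. -/
def S {n : ℕ} (f : Fin n → Fin n) (u : ℕ) (α β : ℝ) (t : ℤ × ℤ) : ℂ :=
  ∑ i : Fin n, if InW u t (pt f i) then ch α β (pt f i) else 0

/-- Second moment of the window sums. -/
lemma sum_S_conj {n : ℕ} (f : Fin n → Fin n) (u : ℕ) (α β : ℝ) :
    ∑ t ∈ Om n u, S f u α β t * conj (S f u α β t)
      = ∑ i : Fin n, ∑ j : Fin n,
        ((wt2 u (pt f i - pt f j) : ℝ) : ℂ) * ch α β (pt f i - pt f j) := by
  have h : ∀ t ∈ Om n u, S f u α β t * conj (S f u α β t)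
      = ∑ i : Fin n, ∑ j : Fin n, (if InW u t (pt f i) ∧ InW u t (pt f j) then (1 : ℂ) else 0) *
        ch α β (pt f i - pt f j) := by
    intro t _
    unfold S
    rw [map_sum, Finset.sum_mul_sum]
    refine Finset.sum_congr rfl fun i _ => Finset.sum_congr rfl fun j _ => ?_
    rw [← ch_mul_conj]
    by_cases h1 : InW u t (pt f i) <;> by_cases h2 : InW u t (pt f j) <;> simp [h1, h2]
  rw [Finset.sum_congr rfl h, Finset.sum_comm]
  refine Finset.sum_congr rfl fun i _ => ?_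
  rw [Finset.sum_comm]
  refine Finset.sum_congr rfl fun j _ => ?_
  rw [← Finset.sum_mul]
  congr 1
  rw [← Pool.Agent.Helper90.CA.two n u (pt f i) (pt f j) (Pool.Agent.Helper90.CA.pt_mem f i)
    (Pool.Agent.Helper90.CA.pt_mem f j), Finset.card_filter]
  push_cast
  refine Finset.sum_congr rfl fun t _ => ?_
  split_ifs <;> simp

/-- Cross moment of the window sums with the character. -/
lemma sum_S_ch {n : ℕ} (f : Fin n → Fin n) (u : ℕ) (α β : ℝ) :
    ∑ t ∈ Om n u, S f u α β t * conj (ch α β t) = n * (D1 u α * D1 u β) := by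
  have h : ∀ t ∈ Om n u, S f u α β t * conj (ch α β t)
      = ∑ i : Fin n, (if InW u t (pt f i) then ch α β (pt f i - t) else 0) := by
    intro t _
    unfold S
    rw [Finset.sum_mul]
    refine Finset.sum_congr rfl fun i _ => ?_
    rw [← ch_mul_conj]
    by_cases h1 : InW u t (pt f i) <;> simp [h1]
  rw [Finset.sum_congr rfl h, Finset.sum_comm]
  have h2 : ∀ i ∈ (univ : Finset (Fin n)), ∑ t ∈ Om n u,
      (if InW u t (pt f i) then ch α β (pt f i - t) else 0) = D1 u α * D1 u β := by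
    intro i _
    obtain ⟨ha, hb, hc, hd⟩ := Pool.Agent.Helper90.CA.pt_mem f i
    rw [← Finset.sum_filter]
    have h3 : (Om n u).filter (fun t => InW u t (pt f i))
        = ((Finset.Ioo (-(u : ℤ)) (n : ℤ)).filter
            (fun s => s ≤ (pt f i).1 ∧ (pt f i).1 < s + u)) ×ˢ
          ((Finset.Ioo (-(u : ℤ)) (n : ℤ)).filter
            (fun s => s ≤ (pt f i).2 ∧ (pt f i).2 < s + u)) := by
      ext t
      simp only [Om, Finset.mem_filter, Finset.mem_product, Finset.mem_Ioo, InW]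
      tauto
    rw [h3, Finset.sum_product, ← win1 n u α _ ha hb, ← win1 n u β _ hc hd, Finset.sum_mul_sum]
    refine Finset.sum_congr rfl fun x _ => Finset.sum_congr rfl fun y _ => ?_
    rw [ch_eq]
    simp only [Prod.fst_sub, Prod.snd_sub]
  rw [Finset.sum_congr rfl h2, Finset.sum_const]
  simp

/-- Splitting of a sum over differences of dots. -/
lemma split_diff {n : ℕ} (f : Fin n → Fin n) (hf : Cos f) (u : ℕ) (hu : 1 ≤ u)
    (g : ℤ × ℤ → ℂ) (hg : ∀ δ, g δ ≠ 0 → δ ∈ Box u) :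
    ∑ i : Fin n, ∑ j : Fin n, g (pt f i - pt f j)
      = n * g 0 + (∑ δ ∈ Box u, g δ - g 0
        - ∑ δ ∈ (Box u).filter (fun δ => δ ≠ 0 ∧ δ ∉ DD f), g δ) := by
  have h3 : ∑ i : Fin n, ∑ j : Fin n, g (pt f i - pt f j) = n * g 0 +
      ∑ p ∈ (univ : Finset (Fin n × Fin n)).filter (fun p => p.1 ≠ p.2),
        g (pt f p.1 - pt f p.2) := by
    rw [← Finset.sum_product', Finset.univ_product_univ,
      ← Finset.sum_filter_add_sum_filter_not (univ : Finset (Fin n × Fin n))
        (fun p => p.1 = p.2)]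
    congr 1
    have : ∀ p ∈ (univ : Finset (Fin n × Fin n)).filter (fun p => p.1 = p.2),
        g (pt f p.1 - pt f p.2) = g 0 := by
      intro p hp
      rw [(Finset.mem_filter.1 hp).2, sub_self]
    rw [Finset.sum_congr rfl this, Finset.sum_const, nsmul_eq_mul]
    congr 1
    have hc : ((univ : Finset (Fin n × Fin n)).filter (fun p => p.1 = p.2)).card = n := by
      have : (univ : Finset (Fin n × Fin n)).filter (fun p => p.1 = p.2) =
          (univ : Finset (Fin n)).image (fun i => (i, i)) := by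
        ext ⟨a, b⟩
        simp only [mem_filter, mem_univ, true_and, mem_image, Prod.mk.injEq]
        constructor
        · rintro rfl
          exact ⟨a, rfl, rfl⟩
        · rintro ⟨c, rfl, rfl⟩
          rfl
      rw [this, Finset.card_image_of_injective _ (fun a b h => (Prod.mk.inj h).1)]
      simp
    rw [hc]
  have h4 : ∑ p ∈ (univ : Finset (Fin n × Fin n)).filter (fun p => p.1 ≠ p.2),
      g (pt f p.1 - pt f p.2) = ∑ δ ∈ DD f, g δ := by
    rw [DD, Finset.sum_image]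
    intro p hp q hq h
    have hp' : p.1 ≠ p.2 := (Finset.mem_filter.1 hp).2
    obtain ⟨ha, hb⟩ := hf p.1 p.2 q.1 q.2 hp' h
    exact Prod.ext ha hb
  have h5 : ∑ δ ∈ DD f, g δ = ∑ δ ∈ (Box u).filter (fun δ => δ ≠ 0 ∧ δ ∈ DD f), g δ := by
    rw [← Finset.sum_filter_of_ne (p := fun δ => δ ∈ Box u) (fun δ _ h => hg δ h)]
    apply Finset.sum_congr _ (fun _ _ => rfl)
    ext δ
    simp only [mem_filter]
    constructor
    · rintro ⟨ha, hb⟩
      exact ⟨hb, fun h0 => Pool.Agent.Helper3.CA.zero_notMem_DD f (h0 ▸ ha), ha⟩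
    · rintro ⟨ha, _, hb⟩
      exact ⟨hb, ha⟩
  have h0B : (0 : ℤ × ℤ) ∈ Box u := by
    unfold Box
    simp only [mem_product, mem_Ioo, Prod.fst_zero, Prod.snd_zero]
    omega
  have h6 : ∑ δ ∈ Box u, g δ = g 0 +
      (∑ δ ∈ (Box u).filter (fun δ => δ ≠ 0 ∧ δ ∈ DD f), g δ
        + ∑ δ ∈ (Box u).filter (fun δ => δ ≠ 0 ∧ δ ∉ DD f), g δ) := by
    rw [← Finset.sum_filter_add_sum_filter_not (Box u) (fun δ => δ = 0)]
    congr 1
    · have : (Box u).filter (fun δ => δ = 0) = {0} := by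
        ext δ
        simp only [mem_filter, mem_singleton]
        constructor
        · exact fun h => h.2
        · rintro rfl
          exact ⟨h0B, rfl⟩
      rw [this, Finset.sum_singleton]
    · rw [← Finset.sum_filter_add_sum_filter_not ((Box u).filter (fun δ => ¬ δ = 0))
        (fun δ => δ ∈ DD f), Finset.filter_filter, Finset.filter_filter]
  rw [h3, h4, h5, h6]
  ring

/-- Variance with phases. -/
theorem variance {n : ℕ} (f : Fin n → Fin n) (hf : Cos f) (u : ℕ) (hu : 1 ≤ u) (hun : u ≤ n)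
    (α β : ℝ) :
    ∑ t ∈ Om n u, ‖S f u α β t - (1 / n : ℂ) * (ch α β t * (D1 u α * D1 u β))‖ ^ 2
      ≤ 2 * (n * (u : ℝ) ^ 2) + 6 * (u : ℝ) ^ 5 / n := by
  have hn : 1 ≤ n := hu.trans hun
  have hnR : (0 : ℝ) < n := by exact_mod_cast hn
  have huR : (1 : ℝ) ≤ u := by exact_mod_cast hu
  have hunR : (u : ℝ) ≤ n := by exact_mod_cast hun
  set D : ℂ := D1 u α * D1 u β with hD
  set d2 : ℝ := Complex.normSq D with hd2
  have hmiss : miss u f ≤ n * (u : ℝ) ^ 2 + 3 * (u : ℝ) ^ 5 / n := by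
    have h := Pool.Agent.Helper3.CA.gET Pool.Agent.Helper90.CA.gWIN n u f hf hu hun
    have h0 : 0 ≤ ∑ t ∈ Om n u, ((cw u f univ t : ℝ) - (u : ℝ) ^ 2 / n) ^ 2 :=
      Finset.sum_nonneg fun t _ => sq_nonneg _
    linarith
  have hDle : d2 ≤ (u : ℝ) ^ 4 := by
    rw [hd2, Complex.normSq_eq_norm_sq, hD, norm_mul]
    have h1 := norm_D1_le u α
    have h2 := norm_D1_le u β
    have h3 : ‖D1 u α‖ * ‖D1 u β‖ ≤ (u : ℝ) * u :=
      mul_le_mul h1 h2 (norm_nonneg _) (by linarith)
    calc (‖D1 u α‖ * ‖D1 u β‖) ^ 2 ≤ ((u : ℝ) * u) ^ 2 :=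
          pow_le_pow_left₀ (by positivity) h3 2
      _ = (u : ℝ) ^ 4 := by ring
  have hd0 : 0 ≤ d2 := Complex.normSq_nonneg _
  -- second moment
  have hA : ∑ t ∈ Om n u, Complex.normSq (S f u α β t) ≤ n * (u : ℝ) ^ 2 + d2 + miss u f := by
    have h1 := sum_S_conj f u α β
    have h2 := split_diff f hf u hu (fun δ => ((wt2 u δ : ℝ) : ℂ) * ch α β δ) (by
      intro δ h
      apply Pool.Agent.Helper3.CA.wt2_off
      intro h0
      exact h (by simp [h0]))
    rw [h2, fej2, Pool.Agent.Helper3.CA.wt2_zero, ch_zero] at h1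
    have h3 := congrArg Complex.re h1
    rw [Complex.re_sum] at h3
    have h4 : ∀ t ∈ Om n u, (S f u α β t * conj (S f u α β t)).re
        = Complex.normSq (S f u α β t) := by
      intro t _
      rw [Complex.mul_conj, Complex.ofReal_re]
    rw [Finset.sum_congr rfl h4, ← hD, Complex.mul_conj, ← hd2] at h3
    rw [h3]
    have h5 : ‖∑ δ ∈ (Box u).filter (fun δ => δ ≠ 0 ∧ δ ∉ DD f),
        ((wt2 u δ : ℝ) : ℂ) * ch α β δ‖ ≤ miss u f := by
      unfold miss
      refine (norm_sum_le _ _).trans (Finset.sum_le_sum fun δ _ => ?_)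
      rw [norm_mul, norm_ch, mul_one, Complex.norm_real, Real.norm_eq_abs, abs_of_nonneg]
      unfold wt2
      positivity
    have h6 := (Complex.abs_re_le_norm _).trans h5
    rw [abs_le] at h6
    simp only [Complex.add_re, Complex.sub_re, Complex.mul_re, Complex.natCast_re,
      Complex.natCast_im, Complex.ofReal_re, Complex.ofReal_im, mul_one, zero_mul, sub_zero]
    have h7 : (0 : ℝ) ≤ (u : ℝ) ^ 2 := by positivity
    nlinarith [h6.1, h6.2]
  -- cross term
  have hB : ∑ t ∈ Om n u,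
      (S f u α β t * conj ((1 / n : ℂ) * (ch α β t * D))).re = d2 := by
    rw [← Complex.re_sum]
    have h1 : ∀ t ∈ Om n u, S f u α β t * conj ((1 / n : ℂ) * (ch α β t * D))
        = (S f u α β t * conj (ch α β t)) * ((1 / n : ℂ) * conj D) := by
      intro t _
      rw [map_mul, map_mul, map_div₀, map_one, Complex.conj_natCast]
      ring
    rw [Finset.sum_congr rfl h1, ← Finset.sum_mul, sum_S_ch, ← hD]
    have h2 : (n : ℂ) * D * ((1 / n : ℂ) * conj D) = D * conj D := by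
      have : (n : ℂ) ≠ 0 := by exact_mod_cast hnR.ne'
      field_simp
    rw [h2, Complex.mul_conj, Complex.ofReal_re]
  -- main term
  have hcard : ((Om n u).card : ℝ) ≤ ((n : ℝ) + u) ^ 2 := by
    have hc : (Om n u).card = (n + u - 1) ^ 2 := by
      rw [Om, Finset.card_product, Int.card_Ioo]
      have : ((n : ℤ) - -(u : ℤ) - 1).toNat = n + u - 1 := by omega
      rw [this, sq]
    rw [hc]
    have : (((n + u - 1 : ℕ) : ℝ)) ≤ (n : ℝ) + u := by
      have : n + u - 1 ≤ n + u := Nat.sub_le _ _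
      exact_mod_cast this
    push_cast
    exact pow_le_pow_left₀ (by positivity) this 2
  have hC : ∑ t ∈ Om n u, Complex.normSq ((1 / n : ℂ) * (ch α β t * D))
      ≤ d2 + 3 * (u : ℝ) ^ 5 / n := by
    have h1 : ∀ t ∈ Om n u, Complex.normSq ((1 / n : ℂ) * (ch α β t * D))
        = d2 / (n : ℝ) ^ 2 := by
      intro t _
      rw [map_mul, map_mul, ← hd2, Complex.normSq_eq_norm_sq (ch α β t), norm_ch]
      rw [map_div₀, map_one, Complex.normSq_natCast]
      field_simp
    rw [Finset.sum_congr rfl h1, Finset.sum_const, nsmul_eq_mul]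
    calc ((Om n u).card : ℝ) * (d2 / (n : ℝ) ^ 2) ≤ ((n : ℝ) + u) ^ 2 * (d2 / (n : ℝ) ^ 2) :=
          mul_le_mul_of_nonneg_right hcard (by positivity)
      _ = d2 * (1 + (u : ℝ) / n) ^ 2 := by field_simp
      _ ≤ d2 * (1 + 3 * ((u : ℝ) / n)) := by
          apply mul_le_mul_of_nonneg_left _ hd0
          have hx0 : 0 ≤ (u : ℝ) / n := by positivity
          have hx1 : (u : ℝ) / n ≤ 1 := by
            rw [div_le_one hnR]
            exact hunR
          nlinarith
      _ = d2 + 3 * ((u : ℝ) / n) * d2 := by ring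
      _ ≤ d2 + 3 * ((u : ℝ) / n) * (u : ℝ) ^ 4 := by
          have : 0 ≤ 3 * ((u : ℝ) / n) := by positivity
          nlinarith [mul_le_mul_of_nonneg_left hDle this]
      _ = d2 + 3 * (u : ℝ) ^ 5 / n := by ring
  have h1 : ∀ t ∈ Om n u, ‖S f u α β t - (1 / n : ℂ) * (ch α β t * D)‖ ^ 2
      = Complex.normSq (S f u α β t) + Complex.normSq ((1 / n : ℂ) * (ch α β t * D))
        - 2 * (S f u α β t * conj ((1 / n : ℂ) * (ch α β t * D))).re := by
    intro t _
    rw [← Complex.normSq_eq_norm_sq, Complex.normSq_sub]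
  rw [Finset.sum_congr rfl h1, Finset.sum_sub_distrib, Finset.sum_add_distrib, ← Finset.mul_sum, hB]
  have h2 : 6 * (u : ℝ) ^ 5 / n = 3 * (u : ℝ) ^ 5 / n + 3 * (u : ℝ) ^ 5 / n := by ring
  rw [h2]
  linarith only [hA, hC, hmiss]

end

end Pool.Agent.Helper50.CQ
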