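import Pool.Agent.Helper50.CQ.Rect

/-!
Equidistribution of Costas arrays (MP_c5396e_co): the final bounds.
-/

set_option autoImplicit false

open Finset
open scoped ComplexConjugate

namespace Pool.Agent.Helper50.CQ

open Pool.Agent.Helper87.CA

noncomputable section

lemma Iv_min (n a b : ℕ) : Iv n a b = Iv n a (min b n) := by
  ext i
  simp only [mem_Iv]
  have := i.2
  omega

lemma card_Iv_le (n a b : ℕ) : ((Iv n a b).card : ℝ) ≤ n := by
  have h := Finset.card_le_univ (Iv n a b)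
  rw [Fintype.card_fin] at h
  exact_mod_cast h

lemma norm_E1_le (n a b : ℕ) (α : ℝ) : ‖E1 n a b α‖ ≤ n := by
  unfold E1
  refine (norm_sum_le _ _).trans ?_
  simp only [norm_e, Finset.sum_const, nsmul_eq_mul, mul_one]
  exact card_Iv_le n a b

lemma norm_SR_le {n : ℕ} (f : Fin n → Fin n) (a b c d : ℕ) (α β : ℝ) :
    ‖SR f a b c d α β‖ ≤ n := by
  unfold SR
  refine (norm_sum_le _ _).trans ?_
  simp only [norm_ch, Finset.sum_const, nsmul_eq_mul, mul_one]
  refine le_trans ?_ (card_Iv_le n a b)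
  exact_mod_cast Finset.card_le_card (Finset.filter_subset _ _)

/-- The exponential sum bound with the constant 5. -/
theorem main {n : ℕ} (f : Equiv.Perm (Fin n)) (hf : IsCostas f) (a b c d : ℕ) (α β : ℝ) :
    ‖SR f a b c d α β - (1 / n : ℂ) * (E1 n a b α * E1 n c d β)‖
      ≤ 5 * (n : ℝ) ^ (5 / 6 : ℝ) := by
  have hcos := Pool.Agent.Helper42.CA.cos_of_costas f hf
  rcases Nat.eq_zero_or_pos n with hn | hn
  · subst hn
    have h1 : ‖SR (f : Fin 0 → Fin 0) a b c d α β‖ = 0 := by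
      simp [SR, Iv]
    rw [norm_eq_zero.1 h1]
    simp
  have hnR : (0 : ℝ) < n := by exact_mod_cast hn
  have hn1 : (1 : ℝ) ≤ n := by exact_mod_cast hn
  set s : ℝ := (n : ℝ) ^ (1 / 6 : ℝ) with hs
  have hs0 : 0 < s := Real.rpow_pos_of_pos hnR _
  have hs6 : s ^ 6 = n := by
    rw [hs, ← Real.rpow_natCast, ← Real.rpow_mul hnR.le]
    norm_num
  have hs5 : (n : ℝ) ^ (5 / 6 : ℝ) = s ^ 5 := by
    rw [hs, ← Real.rpow_natCast, ← Real.rpow_mul hnR.le]
    norm_num
  rw [hs5]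
  by_cases hsmall : s ≤ 5 / 2
  · have h1 : ‖(1 / n : ℂ) * (E1 n a b α * E1 n c d β)‖ ≤ n := by
      rw [norm_mul, norm_mul, norm_div, norm_one, Complex.norm_natCast]
      have h2 := mul_le_mul (norm_E1_le n a b α) (norm_E1_le n c d β) (norm_nonneg _) hnR.le
      rw [div_mul_eq_mul_div, one_mul, div_le_iff₀ hnR]
      exact h2
    have h2 := norm_SR_le (f : Fin n → Fin n) a b c d α β
    refine (norm_sub_le _ _).trans ?_
    have h3 : (n : ℝ) + n ≤ 5 * s ^ 5 := by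
      rw [← hs6]
      have : s ^ 6 = s * s ^ 5 := by ring
      have h5 : (0 : ℝ) < s ^ 5 := by positivity
      nlinarith
    linarith
  · have hs1 : 5 / 2 < s := not_le.1 hsmall
    set u : ℕ := ⌈s ^ 4⌉₊ with hu
    have hu1 : s ^ 4 ≤ u := Nat.le_ceil _
    have hu2 : (u : ℝ) < s ^ 4 + 1 := Nat.ceil_lt_add_one (by positivity)
    have hs4 : (39 : ℝ) ≤ s ^ 4 := by
      have h1 : (5 / 2 : ℝ) ^ 4 ≤ s ^ 4 := pow_le_pow_left₀ (by norm_num) hs1.le 4
      norm_num at h1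
      linarith
    have hu3 : 1 ≤ u := by
      have : (0 : ℝ) < u := by linarith
      exact_mod_cast this
    have hu4 : u ≤ n := by
      rw [hu, Nat.ceil_le, ← hs6]
      have : s ^ 6 = s ^ 4 * s ^ 2 := by ring
      rw [this]
      have h2 : (1 : ℝ) ≤ s ^ 2 := by nlinarith
      nlinarith
    have h := rect f hcos u hu3 hu4 a (min b n) c (min d n) (min_le_right _ _) (min_le_right _ _) α β
    have hSR : SR (f : Fin n → Fin n) a (min b n) c (min d n) α β
        = SR (f : Fin n → Fin n) a b c d α β := by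
      unfold SR
      rw [← Iv_min, ← Iv_min]
    have hE : ∀ (a b : ℕ) (α : ℝ), E1 n a (min b n) α = E1 n a b α := by
      intro a b α
      unfold E1
      rw [← Iv_min]
    rw [hSR, hE, hE] at h
    refine h.trans ?_
    have huR : (0 : ℝ) < u := by exact_mod_cast hu3
    have h5 : s ^ 5 = s * s ^ 4 := by ring
    have h1 : 2 * (n : ℝ) ^ 3 / (u : ℝ) ^ 2 ≤ 2 * s ^ 10 := by
      rw [div_le_iff₀ (by positivity), ← hs6]
      have h2 : (s ^ 4) ^ 2 ≤ (u : ℝ) ^ 2 := pow_le_pow_left₀ (by positivity) hu1 2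
      calc 2 * (s ^ 6) ^ 3 = 2 * s ^ 10 * (s ^ 4) ^ 2 := by ring
        _ ≤ 2 * s ^ 10 * (u : ℝ) ^ 2 := mul_le_mul_of_nonneg_left h2 (by positivity)
    have h2 : 6 * (n * (u : ℝ)) ≤ 6 * s ^ 10 + 6 * s ^ 6 := by
      rw [← hs6]
      have h3 : s ^ 6 * (u : ℝ) ≤ s ^ 6 * (s ^ 4 + 1) :=
        mul_le_mul_of_nonneg_left hu2.le (by positivity)
      nlinarith
    have h3 : Real.sqrt (2 * (n : ℝ) ^ 3 / (u : ℝ) ^ 2 + 6 * (n * (u : ℝ))) ≤ 2.9 * s ^ 5 := by
      rw [Real.sqrt_le_left (by positivity)]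
      have h4 : (2.9 * s ^ 5) ^ 2 = 8 * s ^ 10 + 0.41 * (s ^ 4 * s ^ 6) := by ring
      rw [h4]
      have h6 : 39 * s ^ 6 ≤ s ^ 4 * s ^ 6 := mul_le_mul_of_nonneg_right hs4 (by positivity)
      have h7 : (0 : ℝ) < s ^ 6 := by positivity
      linarith
    have h4 : 5 / 2 * s ^ 4 ≤ s * s ^ 4 := mul_le_mul_of_nonneg_right hs1.le (by positivity)
    linarith

end

end Pool.Agent.Helper50.CQ
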