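import Pool.Agent.Helper50.CQ.Basic

/-!
Equidistribution of Costas arrays (MP_c5396e_co): from windows to rectangles.
-/

set_option autoImplicit false

open Finset
open scoped ComplexConjugate

namespace Pool.Agent.Helper50.CQ

open Pool.Agent.Helper87.CA

noncomputable section

/-- The number of intervals `[s, s+u)` inside `[a,b)` which contain `x`. -/
def N1 (a b u : ℕ) (x : ℤ) : ℝ :=
  (((Finset.Ico (a : ℤ) ((b : ℤ) - u + 1)).filter (fun s => s ≤ x ∧ x < s + u)).card : ℝ)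

lemma N1_nonneg (a b u : ℕ) (x : ℤ) : 0 ≤ N1 a b u x := Nat.cast_nonneg _

lemma N1_le (a b u : ℕ) (x : ℤ) : N1 a b u x ≤ u := by
  unfold N1
  have h : (Finset.Ico (a : ℤ) ((b : ℤ) - u + 1)).filter (fun s => s ≤ x ∧ x < s + u)
      ⊆ Finset.Ioc (x - u) x := by
    intro s hs
    simp only [mem_filter, mem_Ico] at hs
    simp only [mem_Ioc]
    omega
  have h2 := Finset.card_le_card h
  rw [Int.card_Ioc] at h2
  have h3 : (x - (x - (u : ℤ))).toNat = u := by omega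
  rw [h3] at h2
  exact_mod_cast h2

lemma N1_zero (a b u : ℕ) (x : ℤ) (hx : ¬ ((a : ℤ) ≤ x ∧ x < b)) : N1 a b u x = 0 := by
  unfold N1
  have h : (Finset.Ico (a : ℤ) ((b : ℤ) - u + 1)).filter (fun s => s ≤ x ∧ x < s + u) = ∅ := by
    ext s
    simp only [mem_filter, mem_Ico, notMem_empty, iff_false]
    omega
  rw [h]
  simp

/-- One dimensional double counting. -/
lemma win_swap (a b u : ℕ) (g : ℤ → ℂ) :
    ∑ s ∈ Finset.Ico (a : ℤ) ((b : ℤ) - u + 1), ∑ x ∈ Finset.Ico s (s + u), g x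
      = ∑ x ∈ Finset.Ico (a : ℤ) b, (N1 a b u x : ℂ) * g x := by
  have h1 : ∀ s ∈ Finset.Ico (a : ℤ) ((b : ℤ) - u + 1), ∑ x ∈ Finset.Ico s (s + u), g x
      = ∑ x ∈ Finset.Ico (a : ℤ) b, if s ≤ x ∧ x < s + u then g x else 0 := by
    intro s hs
    rw [← Finset.sum_filter]
    congr 1
    simp only [mem_Ico] at hs
    ext x
    simp only [mem_filter, mem_Ico]
    omega
  rw [Finset.sum_congr rfl h1, Finset.sum_comm]
  refine Finset.sum_congr rfl fun x _ => ?_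
  rw [← Finset.sum_filter, Finset.sum_const, nsmul_eq_mul]
  congr 1

lemma sum_N1 (a b u : ℕ) :
    ∑ x ∈ Finset.Ico (a : ℤ) b, N1 a b u x = (((b : ℤ) - u + 1 - a).toNat : ℝ) * u := by
  have h := win_swap a b u (fun _ => 1)
  have h1 : ∀ s ∈ Finset.Ico (a : ℤ) ((b : ℤ) - u + 1),
      ∑ x ∈ Finset.Ico s (s + (u : ℤ)), (1 : ℂ) = u := by
    intro s _
    rw [Finset.sum_const, Int.card_Ico]
    have : (s + (u : ℤ) - s).toNat = u := by omega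
    rw [this]
    simp
  rw [Finset.sum_congr rfl h1, Finset.sum_const, Int.card_Ico] at h
  simp only [mul_one, nsmul_eq_mul] at h
  exact_mod_cast h.symm

/-- The total defect of the weights near the ends of the interval. -/
lemma sum_defect (a b u : ℕ) :
    ∑ x ∈ Finset.Ico (a : ℤ) b, ((u : ℝ) - N1 a b u x) ≤ (u : ℝ) ^ 2 := by
  rw [Finset.sum_sub_distrib, sum_N1, Finset.sum_const, Int.card_Ico, nsmul_eq_mul]
  have hu0 : (0 : ℝ) ≤ u := Nat.cast_nonneg u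
  have h : (((b : ℤ) - a).toNat : ℝ) ≤ (((b : ℤ) - u + 1 - a).toNat : ℝ) + u := by
    have : ((b : ℤ) - a).toNat ≤ ((b : ℤ) - u + 1 - a).toNat + u := by omega
    exact_mod_cast this
  nlinarith

/-- Sums over intervals of `ℤ` and of `Fin n`. -/
lemma sum_Ico_fin {M : Type*} [AddCommMonoid M] (n a b : ℕ) (hb : b ≤ n) (g : ℤ → M) :
    ∑ x ∈ Finset.Ico (a : ℤ) b, g x
      = ∑ i ∈ (univ : Finset (Fin n)).filter (fun i : Fin n => a ≤ (i : ℕ) ∧ (i : ℕ) < b),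
        g ((i : ℕ) : ℤ) := by
  symm
  refine Finset.sum_bij (fun (i : Fin n) _ => ((i : ℕ) : ℤ)) ?_ ?_ ?_ ?_
  · intro i hi
    simp only [mem_filter, mem_univ, true_and] at hi
    simp only [mem_Ico]
    omega
  · intro i _ j _ h
    exact Fin.ext (by exact_mod_cast h)
  · intro x hx
    simp only [mem_Ico] at hx
    refine ⟨⟨x.toNat, by omega⟩, ?_, ?_⟩
    · simp only [mem_filter, mem_univ, true_and]
      omega
    · simp only
      omega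
  · intro i _
    rfl

/-- The interval `[a,b)` of `Fin n`. -/
def Iv (n a b : ℕ) : Finset (Fin n) := univ.filter (fun i : Fin n => a ≤ (i : ℕ) ∧ (i : ℕ) < b)

lemma mem_Iv {n a b : ℕ} {i : Fin n} : i ∈ Iv n a b ↔ a ≤ (i : ℕ) ∧ (i : ℕ) < b := by
  simp [Iv]

/-- The exponential sum over the dots of `f` in the rectangle. -/
def SR {n : ℕ} (f : Fin n → Fin n) (a b c d : ℕ) (α β : ℝ) : ℂ :=
  ∑ i ∈ (Iv n a b).filter (fun i => f i ∈ Iv n c d), ch α β (pt f i)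

/-- The exponential sum over the interval. -/
def E1 (n a b : ℕ) (α : ℝ) : ℂ := ∑ i ∈ Iv n a b, e (α * ((i : ℕ) : ℝ))

/-- Corners of the windows inside the rectangle. -/
def TT (a b c d u : ℕ) : Finset (ℤ × ℤ) :=
  Finset.Ico (a : ℤ) ((b : ℤ) - u + 1) ×ˢ Finset.Ico (c : ℤ) ((d : ℤ) - u + 1)

lemma TT_sub (n a b c d u : ℕ) (hu : 1 ≤ u) (hb : b ≤ n) (hd : d ≤ n) :
    TT a b c d u ⊆ Om n u := by
  intro t ht
  simp only [TT, Om, mem_product, mem_Ico, mem_Ioo] at ht ⊢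
  omega

lemma TT_card (n a b c d u : ℕ) (hu : 1 ≤ u) (hb : b ≤ n) (hd : d ≤ n) :
    ((TT a b c d u).card : ℝ) ≤ (n : ℝ) ^ 2 := by
  rw [TT, Finset.card_product, Int.card_Ico, Int.card_Ico]
  have h1 : ((b : ℤ) - u + 1 - a).toNat ≤ n := by omega
  have h2 : ((d : ℤ) - u + 1 - c).toNat ≤ n := by omega
  have h3 := Nat.mul_le_mul h1 h2
  calc (((((b : ℤ) - u + 1 - a).toNat * ((d : ℤ) - u + 1 - c).toNat : ℕ)) : ℝ)
      ≤ ((n * n : ℕ) : ℝ) := by exact_mod_cast h3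
    _ = (n : ℝ) ^ 2 := by push_cast; ring

lemma sum_TT_S {n : ℕ} (f : Fin n → Fin n) (a b c d u : ℕ) (α β : ℝ) :
    ∑ t ∈ TT a b c d u, S f u α β t
      = ∑ i ∈ (Iv n a b).filter (fun i => f i ∈ Iv n c d),
        ((N1 a b u ((i : ℕ) : ℤ) * N1 c d u ((f i : ℕ) : ℤ) : ℝ) : ℂ) * ch α β (pt f i) := by
  unfold S
  rw [Finset.sum_comm]
  have h : ∀ i ∈ (univ : Finset (Fin n)), ∑ t ∈ TT a b c d u,
      (if InW u t (pt f i) then ch α β (pt f i) else 0)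
      = ((N1 a b u ((i : ℕ) : ℤ) * N1 c d u ((f i : ℕ) : ℤ) : ℝ) : ℂ) * ch α β (pt f i) := by
    intro i _
    rw [← Finset.sum_filter, Finset.sum_const, nsmul_eq_mul]
    congr 1
    have h3 : (TT a b c d u).filter (fun t => InW u t (pt f i))
        = ((Finset.Ico (a : ℤ) ((b : ℤ) - u + 1)).filter
            (fun s => s ≤ ((i : ℕ) : ℤ) ∧ ((i : ℕ) : ℤ) < s + u)) ×ˢ
          ((Finset.Ico (c : ℤ) ((d : ℤ) - u + 1)).filter
            (fun s => s ≤ ((f i : ℕ) : ℤ) ∧ ((f i : ℕ) : ℤ) < s + u)) := by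
      ext t
      simp only [TT, Finset.mem_filter, Finset.mem_product, InW, pt]
      tauto
    rw [h3, Finset.card_product]
    unfold N1
    push_cast
    rfl
  rw [Finset.sum_congr rfl h]
  symm
  refine Finset.sum_subset (Finset.subset_univ _) ?_
  intro i _ hi
  have hz : N1 a b u ((i : ℕ) : ℤ) * N1 c d u ((f i : ℕ) : ℤ) = 0 := by
    simp only [mem_filter, mem_Iv, not_and] at hi
    by_cases h1 : a ≤ (i : ℕ) ∧ (i : ℕ) < b
    · have h2 := hi h1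
      rw [N1_zero c d u _ (by intro h3; exact h2 (by omega) (by omega)), mul_zero]
    · rw [N1_zero a b u _ (by intro h3; exact h1 (by omega)), zero_mul]
  rw [hz]
  simp

lemma D1_shift (u : ℕ) (α : ℝ) (s : ℤ) :
    e (α * (s : ℝ)) * D1 u α = ∑ x ∈ Finset.Ico s (s + u), e (α * (x : ℝ)) := by
  unfold D1
  rw [Finset.mul_sum]
  refine Finset.sum_bij (fun (w : ℕ) _ => s + (w : ℤ)) ?_ ?_ ?_ ?_
  · intro w hw
    simp only [mem_range] at hw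
    simp only [mem_Ico]
    omega
  · intro w _ w' _ h
    omega
  · intro x hx
    simp only [mem_Ico] at hx
    refine ⟨(x - s).toNat, ?_, ?_⟩
    · simp only [mem_range]
      omega
    · omega
  · intro w _
    rw [← e_add]
    congr 1
    push_cast
    ring

lemma sum_shift (n a b u : ℕ) (hb : b ≤ n) (α : ℝ) :
    (∑ s ∈ Finset.Ico (a : ℤ) ((b : ℤ) - u + 1), e (α * (s : ℝ))) * D1 u α
      = ∑ i ∈ Iv n a b, ((N1 a b u ((i : ℕ) : ℤ) : ℝ) : ℂ) * e (α * ((i : ℕ) : ℝ)) := by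
  rw [Finset.sum_mul]
  have h : ∀ s ∈ Finset.Ico (a : ℤ) ((b : ℤ) - u + 1), e (α * (s : ℝ)) * D1 u α
      = ∑ x ∈ Finset.Ico s (s + u), e (α * (x : ℝ)) := fun s _ => D1_shift u α s
  rw [Finset.sum_congr rfl h, win_swap a b u (fun x => e (α * (x : ℝ))),
    sum_Ico_fin n a b hb (fun x => (N1 a b u x : ℂ) * e (α * (x : ℝ)))]
  unfold Iv
  refine Finset.sum_congr rfl fun i _ => ?_
  push_cast
  rfl

lemma sum_TT_ch (n a b c d u : ℕ) (hb : b ≤ n) (hd : d ≤ n) (α β : ℝ) :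
    ∑ t ∈ TT a b c d u, ch α β t * (D1 u α * D1 u β)
      = ∑ i ∈ Iv n a b, ∑ j ∈ Iv n c d,
        ((N1 a b u ((i : ℕ) : ℤ) * N1 c d u ((j : ℕ) : ℤ) : ℝ) : ℂ) *
          (e (α * ((i : ℕ) : ℝ)) * e (β * ((j : ℕ) : ℝ))) := by
  have h1 : ∑ t ∈ TT a b c d u, ch α β t * (D1 u α * D1 u β)
      = ((∑ s ∈ Finset.Ico (a : ℤ) ((b : ℤ) - u + 1), e (α * (s : ℝ))) * D1 u α) *
        ((∑ s ∈ Finset.Ico (c : ℤ) ((d : ℤ) - u + 1), e (β * (s : ℝ))) * D1 u β) := by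
    unfold TT
    rw [← Finset.sum_mul, Finset.sum_product]
    have h2 : ∀ x ∈ Finset.Ico (a : ℤ) ((b : ℤ) - u + 1),
        ∑ y ∈ Finset.Ico (c : ℤ) ((d : ℤ) - u + 1), ch α β (x, y)
        = e (α * (x : ℝ)) * ∑ y ∈ Finset.Ico (c : ℤ) ((d : ℤ) - u + 1), e (β * (y : ℝ)) := by
      intro x _
      rw [Finset.mul_sum]
      refine Finset.sum_congr rfl fun y _ => ?_
      rw [ch_eq]
    rw [Finset.sum_congr rfl h2, ← Finset.sum_mul]
    ring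
  rw [h1, sum_shift n a b u hb, sum_shift n c d u hd, Finset.sum_mul_sum]
  refine Finset.sum_congr rfl fun i _ => Finset.sum_congr rfl fun j _ => ?_
  push_cast
  ring

lemma defect_le {a b c d u : ℕ} (x y : ℤ) :
    0 ≤ (u : ℝ) ^ 2 - N1 a b u x * N1 c d u y ∧
    (u : ℝ) ^ 2 - N1 a b u x * N1 c d u y
      ≤ u * ((u : ℝ) - N1 a b u x) + u * ((u : ℝ) - N1 c d u y) := by
  have h1 := N1_nonneg a b u x
  have h2 := N1_nonneg c d u y
  have h3 := N1_le a b u x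
  have h4 := N1_le c d u y
  constructor
  · nlinarith
  · nlinarith [mul_nonneg (sub_nonneg.2 h3) (sub_nonneg.2 h4)]

/-- Rectangles: the main estimate with a free window size. -/
theorem rect {n : ℕ} (f : Equiv.Perm (Fin n)) (hf : Cos (f : Fin n → Fin n)) (u : ℕ) (hu : 1 ≤ u)
    (hun : u ≤ n) (a b c d : ℕ) (hb : b ≤ n) (hd : d ≤ n) (α β : ℝ) :
    ‖SR f a b c d α β - (1 / n : ℂ) * (E1 n a b α * E1 n c d β)‖
      ≤ 4 * u + Real.sqrt (2 * (n : ℝ) ^ 3 / (u : ℝ) ^ 2 + 6 * (n * (u : ℝ))) := by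
  have hn : 1 ≤ n := hu.trans hun
  have hnR : (0 : ℝ) < n := by exact_mod_cast hn
  have huR : (0 : ℝ) < u := by exact_mod_cast hu
  have hsum : ∀ a b : ℕ, b ≤ n → ∑ i ∈ Iv n a b, ((u : ℝ) - N1 a b u ((i : ℕ) : ℤ)) ≤ (u : ℝ) ^ 2 := by
    intro a b hb
    have h := sum_defect a b u
    rw [sum_Ico_fin n a b hb (fun x => (u : ℝ) - N1 a b u x)] at h
    exact h
  have hsum0 : ∀ (a b : ℕ) (i : Fin n), 0 ≤ (u : ℝ) - N1 a b u ((i : ℕ) : ℤ) := fun a b i =>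
    sub_nonneg.2 (N1_le a b u _)
  -- the three error terms
  have hX : ‖∑ t ∈ TT a b c d u, (S f u α β t - (1 / n : ℂ) * (ch α β t * (D1 u α * D1 u β)))‖
      ≤ n * Real.sqrt (2 * (n * (u : ℝ) ^ 2) + 6 * (u : ℝ) ^ 5 / n) := by
    refine (norm_sum_le _ _).trans ?_
    have hv := variance (f : Fin n → Fin n) hf u hu hun α β
    have h1 : ∑ t ∈ TT a b c d u, ‖S f u α β t - (1 / n : ℂ) * (ch α β t * (D1 u α * D1 u β))‖ ^ 2
        ≤ 2 * (n * (u : ℝ) ^ 2) + 6 * (u : ℝ) ^ 5 / n :=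
      (Finset.sum_le_sum_of_subset_of_nonneg (TT_sub n a b c d u hu hb hd)
        (fun t _ _ => sq_nonneg _)).trans hv
    have h2 := sq_sum_le_card_mul_sum_sq (s := TT a b c d u)
      (f := fun t => ‖S f u α β t - (1 / n : ℂ) * (ch α β t * (D1 u α * D1 u β))‖)
    have h3 := TT_card n a b c d u hu hb hd
    have h4 : (∑ t ∈ TT a b c d u,
        ‖S f u α β t - (1 / n : ℂ) * (ch α β t * (D1 u α * D1 u β))‖) ^ 2
        ≤ (n : ℝ) ^ 2 * (2 * (n * (u : ℝ) ^ 2) + 6 * (u : ℝ) ^ 5 / n) := by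
      refine h2.trans (mul_le_mul h3 h1 (Finset.sum_nonneg fun t _ => sq_nonneg _) (by positivity))
    have h5 := Real.le_sqrt_of_sq_le h4
    rwa [Real.sqrt_mul (by positivity), Real.sqrt_sq hnR.le] at h5
  have hY : ‖∑ i ∈ (Iv n a b).filter (fun i => f i ∈ Iv n c d),
      (((u : ℝ) ^ 2 - N1 a b u ((i : ℕ) : ℤ) * N1 c d u ((f i : ℕ) : ℤ) : ℝ) : ℂ) * ch α β (pt f i)‖
      ≤ 2 * (u : ℝ) ^ 3 := by
    refine (norm_sum_le _ _).trans ?_
    have h1 : ∀ i ∈ (Iv n a b).filter (fun i => f i ∈ Iv n c d),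
        ‖(((u : ℝ) ^ 2 - N1 a b u ((i : ℕ) : ℤ) * N1 c d u ((f i : ℕ) : ℤ) : ℝ) : ℂ) *
          ch α β (pt f i)‖
        ≤ u * ((u : ℝ) - N1 a b u ((i : ℕ) : ℤ)) + u * ((u : ℝ) - N1 c d u ((f i : ℕ) : ℤ)) := by
      intro i _
      rw [norm_mul, norm_ch, mul_one, Complex.norm_real, Real.norm_eq_abs,
        abs_of_nonneg (defect_le _ _).1]
      exact (defect_le _ _).2
    refine (Finset.sum_le_sum h1).trans ?_
    rw [Finset.sum_add_distrib, ← Finset.mul_sum, ← Finset.mul_sum]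
    have h2 : ∑ i ∈ (Iv n a b).filter (fun i => f i ∈ Iv n c d),
        ((u : ℝ) - N1 a b u ((i : ℕ) : ℤ)) ≤ (u : ℝ) ^ 2 :=
      (Finset.sum_le_sum_of_subset_of_nonneg (Finset.filter_subset _ _)
        (fun i _ _ => hsum0 a b i)).trans (hsum a b hb)
    have h3 : ∑ i ∈ (Iv n a b).filter (fun i => f i ∈ Iv n c d),
        ((u : ℝ) - N1 c d u ((f i : ℕ) : ℤ)) ≤ (u : ℝ) ^ 2 := by
      have h4 : ∑ i ∈ (Iv n a b).filter (fun i => f i ∈ Iv n c d),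
          ((u : ℝ) - N1 c d u ((f i : ℕ) : ℤ))
          = ∑ j ∈ ((Iv n a b).filter (fun i => f i ∈ Iv n c d)).map f.toEmbedding,
            ((u : ℝ) - N1 c d u ((j : ℕ) : ℤ)) := by
        rw [Finset.sum_map]
        rfl
      rw [h4]
      refine (Finset.sum_le_sum_of_subset_of_nonneg ?_
        (fun i _ _ => hsum0 c d i)).trans (hsum c d hd)
      intro j hj
      simp only [mem_map, mem_filter] at hj
      obtain ⟨i, ⟨_, hi⟩, rfl⟩ := hj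
      exact hi
    have h5 := mul_le_mul_of_nonneg_left h2 huR.le
    have h6 := mul_le_mul_of_nonneg_left h3 huR.le
    nlinarith
  have hZ : ‖(1 / n : ℂ) * ∑ i ∈ Iv n a b, ∑ j ∈ Iv n c d,
      (((u : ℝ) ^ 2 - N1 a b u ((i : ℕ) : ℤ) * N1 c d u ((j : ℕ) : ℤ) : ℝ) : ℂ) *
        (e (α * ((i : ℕ) : ℝ)) * e (β * ((j : ℕ) : ℝ)))‖ ≤ 2 * (u : ℝ) ^ 3 := by
    have h1 : ‖∑ i ∈ Iv n a b, ∑ j ∈ Iv n c d,
        (((u : ℝ) ^ 2 - N1 a b u ((i : ℕ) : ℤ) * N1 c d u ((j : ℕ) : ℤ) : ℝ) : ℂ) *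
          (e (α * ((i : ℕ) : ℝ)) * e (β * ((j : ℕ) : ℝ)))‖
        ≤ ∑ i ∈ Iv n a b, ∑ j ∈ Iv n c d,
          (u * ((u : ℝ) - N1 a b u ((i : ℕ) : ℤ)) + u * ((u : ℝ) - N1 c d u ((j : ℕ) : ℤ))) := by
      refine (norm_sum_le _ _).trans (Finset.sum_le_sum fun i _ => ?_)
      refine (norm_sum_le _ _).trans (Finset.sum_le_sum fun j _ => ?_)
      rw [norm_mul, norm_mul, norm_e, norm_e, mul_one, mul_one, Complex.norm_real,
        Real.norm_eq_abs, abs_of_nonneg (defect_le _ _).1]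
      exact (defect_le _ _).2
    have h2 : ∑ i ∈ Iv n a b, ∑ j ∈ Iv n c d,
          (u * ((u : ℝ) - N1 a b u ((i : ℕ) : ℤ)) + u * ((u : ℝ) - N1 c d u ((j : ℕ) : ℤ)))
        = (Iv n c d).card * (u * ∑ i ∈ Iv n a b, ((u : ℝ) - N1 a b u ((i : ℕ) : ℤ)))
          + (Iv n a b).card * (u * ∑ j ∈ Iv n c d, ((u : ℝ) - N1 c d u ((j : ℕ) : ℤ))) := by
      simp only [Finset.sum_add_distrib, Finset.sum_const, nsmul_eq_mul, ← Finset.mul_sum]
    have hcard : ∀ a b : ℕ, ((Iv n a b).card : ℝ) ≤ n := by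
      intro a b
      have h := Finset.card_le_univ (Iv n a b)
      rw [Fintype.card_fin] at h
      exact_mod_cast h
    have h3 : 0 ≤ ∑ i ∈ Iv n a b, ((u : ℝ) - N1 a b u ((i : ℕ) : ℤ)) :=
      Finset.sum_nonneg fun i _ => hsum0 a b i
    have h4 : 0 ≤ ∑ j ∈ Iv n c d, ((u : ℝ) - N1 c d u ((j : ℕ) : ℤ)) :=
      Finset.sum_nonneg fun i _ => hsum0 c d i
    have h5 : ((Iv n c d).card : ℝ) * (u * ∑ i ∈ Iv n a b, ((u : ℝ) - N1 a b u ((i : ℕ) : ℤ)))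
        ≤ n * (u * (u : ℝ) ^ 2) :=
      mul_le_mul (hcard c d) (mul_le_mul_of_nonneg_left (hsum a b hb) huR.le)
        (by positivity) hnR.le
    have h6 : ((Iv n a b).card : ℝ) * (u * ∑ j ∈ Iv n c d, ((u : ℝ) - N1 c d u ((j : ℕ) : ℤ)))
        ≤ n * (u * (u : ℝ) ^ 2) :=
      mul_le_mul (hcard a b) (mul_le_mul_of_nonneg_left (hsum c d hd) huR.le)
        (by positivity) hnR.le
    rw [norm_mul, norm_div, norm_one, Complex.norm_natCast]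
    rw [div_mul_eq_mul_div, one_mul, div_le_iff₀ hnR]
    nlinarith
  -- the identity
  have hid : ((u : ℂ) ^ 2) * (SR f a b c d α β - (1 / n : ℂ) * (E1 n a b α * E1 n c d β))
      = ∑ t ∈ TT a b c d u, (S f u α β t - (1 / n : ℂ) * (ch α β t * (D1 u α * D1 u β)))
        + ∑ i ∈ (Iv n a b).filter (fun i => f i ∈ Iv n c d),
      (((u : ℝ) ^ 2 - N1 a b u ((i : ℕ) : ℤ) * N1 c d u ((f i : ℕ) : ℤ) : ℝ) : ℂ) * ch α β (pt f i)
        - (1 / n : ℂ) * ∑ i ∈ Iv n a b, ∑ j ∈ Iv n c d,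
      (((u : ℝ) ^ 2 - N1 a b u ((i : ℕ) : ℤ) * N1 c d u ((j : ℕ) : ℤ) : ℝ) : ℂ) *
        (e (α * ((i : ℕ) : ℝ)) * e (β * ((j : ℕ) : ℝ))) := by
    rw [Finset.sum_sub_distrib, ← Finset.mul_sum, sum_TT_S, sum_TT_ch n a b c d u hb hd]
    unfold SR E1
    rw [Finset.sum_mul_sum]
    have h1 : ∑ i ∈ (Iv n a b).filter (fun i => f i ∈ Iv n c d),
        (((u : ℝ) ^ 2 - N1 a b u ((i : ℕ) : ℤ) * N1 c d u ((f i : ℕ) : ℤ) : ℝ) : ℂ) * ch α β (pt f i)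
        = (u : ℂ) ^ 2 * ∑ i ∈ (Iv n a b).filter (fun i => f i ∈ Iv n c d), ch α β (pt f i)
          - ∑ i ∈ (Iv n a b).filter (fun i => f i ∈ Iv n c d),
          ((N1 a b u ((i : ℕ) : ℤ) * N1 c d u ((f i : ℕ) : ℤ) : ℝ) : ℂ) * ch α β (pt f i) := by
      rw [Finset.mul_sum, ← Finset.sum_sub_distrib]
      refine Finset.sum_congr rfl fun i _ => ?_
      push_cast
      ring
    have h2 : ∑ i ∈ Iv n a b, ∑ j ∈ Iv n c d,
        (((u : ℝ) ^ 2 - N1 a b u ((i : ℕ) : ℤ) * N1 c d u ((j : ℕ) : ℤ) : ℝ) : ℂ) *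
          (e (α * ((i : ℕ) : ℝ)) * e (β * ((j : ℕ) : ℝ)))
        = (u : ℂ) ^ 2 * ∑ i ∈ Iv n a b, ∑ j ∈ Iv n c d,
            (e (α * ((i : ℕ) : ℝ)) * e (β * ((j : ℕ) : ℝ)))
          - ∑ i ∈ Iv n a b, ∑ j ∈ Iv n c d,
          ((N1 a b u ((i : ℕ) : ℤ) * N1 c d u ((j : ℕ) : ℤ) : ℝ) : ℂ) *
          (e (α * ((i : ℕ) : ℝ)) * e (β * ((j : ℕ) : ℝ))) := by
      rw [Finset.mul_sum, ← Finset.sum_sub_distrib]
      refine Finset.sum_congr rfl fun i _ => ?_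
      rw [Finset.mul_sum, ← Finset.sum_sub_distrib]
      refine Finset.sum_congr rfl fun j _ => ?_
      push_cast
      ring
    rw [h1, h2]
    ring
  have hfin : (u : ℝ) ^ 2 * ‖SR f a b c d α β - (1 / n : ℂ) * (E1 n a b α * E1 n c d β)‖
      ≤ n * Real.sqrt (2 * (n * (u : ℝ) ^ 2) + 6 * (u : ℝ) ^ 5 / n) + 4 * (u : ℝ) ^ 3 := by
    have h1 : (u : ℝ) ^ 2 * ‖SR f a b c d α β - (1 / n : ℂ) * (E1 n a b α * E1 n c d β)‖
        = ‖((u : ℂ) ^ 2) * (SR f a b c d α β - (1 / n : ℂ) * (E1 n a b α * E1 n c d β))‖ := by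
      rw [norm_mul, norm_pow, Complex.norm_natCast]
    rw [h1, hid]
    refine (norm_sub_le _ _).trans ?_
    refine (add_le_add_left (norm_add_le _ _) _).trans ?_
    linarith
  have hsq : (n : ℝ) * Real.sqrt (2 * (n * (u : ℝ) ^ 2) + 6 * (u : ℝ) ^ 5 / n)
      = (u : ℝ) ^ 2 * Real.sqrt (2 * (n : ℝ) ^ 3 / (u : ℝ) ^ 2 + 6 * (n * (u : ℝ))) := by
    have h1 : (n : ℝ) * Real.sqrt (2 * (n * (u : ℝ) ^ 2) + 6 * (u : ℝ) ^ 5 / n)
        = Real.sqrt ((n : ℝ) ^ 2 * (2 * (n * (u : ℝ) ^ 2) + 6 * (u : ℝ) ^ 5 / n)) := by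
      rw [Real.sqrt_mul (by positivity), Real.sqrt_sq hnR.le]
    have h2 : (u : ℝ) ^ 2 * Real.sqrt (2 * (n : ℝ) ^ 3 / (u : ℝ) ^ 2 + 6 * (n * (u : ℝ)))
        = Real.sqrt (((u : ℝ) ^ 2) ^ 2 * (2 * (n : ℝ) ^ 3 / (u : ℝ) ^ 2 + 6 * (n * (u : ℝ)))) := by
      rw [Real.sqrt_mul (by positivity), Real.sqrt_sq (by positivity)]
    rw [h1, h2]
    congr 1
    field_simp
  rw [hsq] at hfin
  have hu2 : (0 : ℝ) < (u : ℝ) ^ 2 := by positivity
  refine le_of_mul_le_mul_left ?_ hu2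
  calc _ ≤ _ := hfin
    _ = (u : ℝ) ^ 2 * (4 * u + Real.sqrt (2 * (n : ℝ) ^ 3 / (u : ℝ) ^ 2 + 6 * (n * (u : ℝ)))) := by
        ring

end

end Pool.Agent.Helper50.CQ
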